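import Mathlib
import Pool.Agent.TH773.PSet.Defs

/-!
# The polarized relation and the dominating number of a forcing extension
-/

set_option autoImplicit false

namespace Pool.Agent.Y575.Pol

open Cardinal Pool.Agent.TH773.PSet

universe u v

/-- The dominating number `𝔡`. -/
noncomputable def dominatingNumber : Cardinal.{0} :=
  sInf {κ | ∃ D : Set (ℕ → ℕ), #D = κ ∧
    ∀ g : ℕ → ℕ, ∃ f ∈ D, ∃ N, ∀ n, N ≤ n → g n ≤ f n}

/-- The relation `(κ, ω) → (κ, ω)` with two colours, where `κ` is the cardinality of `K`: for each
`c : K × ω → 2` there are a subset `A` of `K` of the cardinality of `K` and an infinite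
`B ⊆ ω` such that `c` is constant on `A × B`. -/
def PolarizedRel (K : Type v) : Prop :=
  ∀ c : K → ℕ → Bool, ∃ (A : Set K) (B : Set ℕ) (i : Bool),
    #A = #K ∧ B.Infinite ∧ ∀ x ∈ A, ∀ n ∈ B, c x n = i

section Forcing

variable {P : Type u} [Preorder P]

/-- In the extension the subset of `K` named by `A` has the cardinality of `K`: some relation
(named by `R`) is an injective function from `K` to `K` with values in this subset. -/
def FullSize {K : Type v} (A : K → Set P) : Set P :=
  fex fun R : K → K → Set P =>
    fand (fall fun x => fex fun y => meets (R x y))
      (fand
        (fall fun x => fall fun y => fall fun y' => fall fun _ : y ≠ y' =>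
          fnot (fand (meets (R x y)) (meets (R x y'))))
        (fand
          (fall fun x => fall fun x' => fall fun _ : x ≠ x' => fall fun y =>
            fnot (fand (meets (R x y)) (meets (R x' y))))
          (fall fun x => fall fun y => fimp (meets (R x y)) (meets (A y)))))

variable (P) in
/-- The relation `(κ, ω) → (κ, ω)` with two colours holds in the extension, where `κ` is the
cardinality of `K`. A colouring `c : K × ω → 2` is named by the names `c x` of the sets
`{n : c (x, n) = 1}`; it is constant on `A × B` iff `B` is included in the set named by `c x` for
all `x` in `A`, or disjoint from it for all `x` in `A`. -/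
def Polarized (K : Type v) : Set P :=
  fall fun c : K → RName P => fex fun A : K → Set P => fex fun B : RName P =>
    fand (FullSize A) (fand (Inf B)
      (disj (fall fun x => fimp (meets (A x)) (Sub B (c x)))
        (fall fun x => fimp (meets (A x)) (Disj B (c x)))))

/-- The relation named by `x` is a function from `ω` to `ω`. -/
def IsReal (x : ℕ → RName P) : Set P :=
  fand (fall fun n => fex fun a => meets (x n a))
    (fall fun n => fall fun a => fall fun b => fall fun _ : a ≠ b =>
      fnot (fand (meets (x n a)) (meets (x n b))))

/-- The function named by `x` is eventually dominated by the one named by `y`: from some `N` on,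
there are no values `b < a` with `y n = b` and `x n = a`. -/
def EvLe (x y : ℕ → RName P) : Set P :=
  fex fun N : ℕ => fall fun n => fall fun _ : N ≤ n => fall fun a => fall fun b =>
    fall fun _ : b < a => fnot (fand (meets (x n a)) (meets (y n b)))

variable (P) in
/-- In the extension there is a dominating family of functions from `ω` to `ω` indexed by `Y`. -/
def DominatingLe (Y : Type v) : Set P :=
  fex fun E : Y → ℕ → RName P =>
    fand (fall fun y => IsReal (E y))
      (fall fun x : ℕ → RName P => fimp (IsReal x) (fex fun y => EvLe x (E y)))

variable (P) in
/-- In the extension `𝔡 = κ`: there is a dominating family indexed by `κ`, and none indexed by a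
smaller cardinal. -/
def DominatingIs (κ : Cardinal.{v}) : Set P :=
  fand (DominatingLe P κ.out)
    (fall fun μ : Cardinal.{v} => fall fun _ : μ < κ => fnot (DominatingLe P μ.out))

end Forcing

end Pool.Agent.Y575.Pol
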