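import Mathlib
import Pool.Agent.TH773.PSet.Ground
import Pool.Agent.Y575.PolDefs

/-!
# The sentences for the trivial forcing
-/

set_option autoImplicit false

namespace Pool.Agent.Y575.Pol

open Cardinal Pool.Agent.TH773.PSet

universe u v

theorem u_fullSize {K : Type v} {A : K → Set Unit} :
    () ∈ FullSize A ↔ #{x : K | () ∈ A x} = #K := by
  unfold FullSize
  simp only [u_fex, u_fand, u_fall, u_fimp, u_fnot, u_meets]
  constructor
  · rintro ⟨R, h1, h2, h3, h4⟩
    choose f hf using h1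
    refine le_antisymm (mk_set_le _) (mk_le_of_injective (f := fun x => ⟨f x, h4 _ _ (hf x)⟩) ?_)
    intro x x' hxx
    by_contra hne
    have h5 : f x = f x' := congrArg Subtype.val hxx
    exact h3 x x' hne (f x) ⟨hf x, h5 ▸ hf x'⟩
  · intro h
    obtain ⟨e⟩ := Cardinal.eq.1 h.symm
    refine ⟨fun x y => {_u | (e x : K) = y}, fun x => ⟨_, rfl⟩, ?_, ?_, ?_⟩
    · rintro x y y' hne ⟨h1, h2⟩
      exact hne (h1.symm.trans h2)
    · rintro x x' hne y ⟨h1, h2⟩
      exact hne (e.injective (Subtype.ext (h1.trans h2.symm)))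
    · rintro x y h1
      have h1 : (e x : K) = y := h1
      rw [← h1]
      exact (e x).2

theorem u_inf {B : RName Unit} : () ∈ Inf B ↔ {n | () ∈ B n}.Infinite := by
  unfold Inf
  simp only [u_fex, u_fall, u_meets]
  rw [← Nat.frequently_atTop_iff_infinite, Filter.frequently_atTop]
  simp

/-- For the trivial forcing, `Polarized` is the polarized relation. -/
theorem polarized_ground (K : Type v) (p : Unit) : p ∈ Polarized Unit K ↔ PolarizedRel K := by
  obtain rfl : p = () := rfl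
  unfold Polarized PolarizedRel
  simp only [u_fall, u_fex, u_fand, u_fullSize, u_inf, u_disj, u_fimp, u_meets,
    Pool.Agent.TH773.PSet.Sub, Disj, u_fnot]
  constructor
  · intro h c
    obtain ⟨A, B, h1, h2, h3⟩ := h fun x n => {_u | c x n = true}
    rcases h3 with h3 | h3
    · exact ⟨{x | () ∈ A x}, {n | () ∈ B n}, true, h1, h2, fun x hx n hn => h3 x hx n hn⟩
    · refine ⟨{x | () ∈ A x}, {n | () ∈ B n}, false, h1, h2, fun x hx n hn => ?_⟩
      by_contra h4
      exact h3 x hx n ⟨hn, by simpa using h4⟩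
  · classical
    intro h c
    obtain ⟨A, B, i, h1, h2, h3⟩ := h fun x n => decide (() ∈ c x n)
    refine ⟨fun x => {_u | x ∈ A}, fun n => {_u | n ∈ B}, h1, h2, ?_⟩
    cases i
    · right
      rintro x hx n ⟨hn, hn'⟩
      have := h3 x hx n hn
      simp [hn'] at this
    · left
      rintro x hx n hn
      have := h3 x hx n hn
      simpa using this

theorem u_dominatingLe (Y : Type v) : () ∈ DominatingLe Unit Y ↔
    ∃ E : Y → ℕ → ℕ, ∀ g : ℕ → ℕ, ∃ y, ∃ N, ∀ n, N ≤ n → g n ≤ E y n := by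
  unfold DominatingLe IsReal EvLe
  simp only [u_fex, u_fand, u_fall, u_fimp, u_fnot, u_meets]
  constructor
  · rintro ⟨E, h1, h2⟩
    choose f hf using fun y => (h1 y).1
    refine ⟨f, fun g => ?_⟩
    obtain ⟨y, N, h3⟩ := h2 (fun n a => {_u | g n = a}) ⟨fun n => ⟨_, rfl⟩, by
      rintro n a b hne ⟨h4, h5⟩
      exact hne (h4.symm.trans h5)⟩
    refine ⟨y, N, fun n hn => ?_⟩
    by_contra hlt
    push Not at hlt
    exact h3 n hn _ _ hlt ⟨rfl, hf y n⟩
  · rintro ⟨E, hE⟩
    refine ⟨fun y n a => {_u | E y n = a}, fun y => ⟨fun n => ⟨_, rfl⟩, by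
      rintro n a b hne ⟨h4, h5⟩
      exact hne (h4.symm.trans h5)⟩, fun x hx => ?_⟩
    choose g hg using hx.1
    obtain ⟨y, N, h⟩ := hE g
    refine ⟨y, N, fun n hn a b hab h' => ?_⟩
    have h4 : E y n = b := h'.2
    have h5 : a = g n := by
      by_contra hne
      exact hx.2 n _ _ hne ⟨h'.1, hg n⟩
    have := h n hn
    omega

theorem dominating_set_iff (κ : Cardinal.{0}) :
    (∃ E : κ.out → ℕ → ℕ, ∀ g : ℕ → ℕ, ∃ y, ∃ N, ∀ n, N ≤ n → g n ≤ E y n) ↔
      dominatingNumber ≤ κ := by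
  constructor
  · rintro ⟨E, hE⟩
    refine le_trans (csInf_le' ⟨Set.range E, rfl, fun g => ?_⟩) (mk_range_le.trans (mk_out κ).le)
    obtain ⟨y, hy⟩ := hE g
    exact ⟨E y, ⟨y, rfl⟩, hy⟩
  · intro h
    obtain ⟨D, hD, hD'⟩ : dominatingNumber ∈ {κ : Cardinal.{0} | ∃ D : Set (ℕ → ℕ), #D = κ ∧
        ∀ g : ℕ → ℕ, ∃ f ∈ D, ∃ N, ∀ n, N ≤ n → g n ≤ f n} :=
      csInf_mem ⟨_, Set.univ, rfl, fun g => ⟨g, trivial, 0, fun _ _ => le_rfl⟩⟩
    have hne : D.Nonempty := by
      obtain ⟨f, hf, -⟩ := hD' fun _ => 0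
      exact ⟨f, hf⟩
    have : Nonempty D := hne.to_subtype
    have h1 : #D ≤ #κ.out := by rw [hD, mk_out]; exact h
    obtain ⟨i⟩ := h1
    refine ⟨fun y => (Function.invFun i y : D), fun g => ?_⟩
    obtain ⟨f, hf, h2⟩ := hD' g
    refine ⟨i ⟨f, hf⟩, ?_⟩
    have h3 : Function.invFun i (i ⟨f, hf⟩) = ⟨f, hf⟩ := Function.leftInverse_invFun i.injective _
    simp only [h3]
    exact h2

/-- For the trivial forcing, `DominatingIs κ` says that `κ = 𝔡`. -/
theorem dominatingIs_ground (κ : Cardinal.{0}) (p : Unit) :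
    p ∈ DominatingIs Unit κ ↔ κ = dominatingNumber := by
  obtain rfl : p = () := rfl
  unfold DominatingIs
  simp only [u_fand, u_fall, u_fnot, u_dominatingLe, dominating_set_iff]
  constructor
  · rintro ⟨h1, h2⟩
    refine le_antisymm ?_ h1
    by_contra hlt
    push Not at hlt
    exact h2 _ hlt le_rfl
  · rintro rfl
    exact ⟨le_rfl, fun μ hμ => not_le.2 hμ⟩

end Pool.Agent.Y575.Pol
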