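import Mathlib
import Pool.Agent.TH773.PSet.Prod

/-!
# A random real is not constant on an infinite set it does not depend on
-/

set_option autoImplicit false

namespace Pool.Agent.Y575.Pol

open MeasureTheory Set Filter Topology ProbabilityTheory Cardinal Pool.Agent.TH773.PSet

theorem coin_sing (v : Bool) : coin {v} = (2 : ENNReal)⁻¹ := by
  unfold coin
  cases v <;> simp [Measure.smul_apply, Measure.add_apply]

variable {I : Type}

theorem dep_coord' {T : Set (I × ℕ)} {t : I × ℕ} (ht : t ∈ T) (v : Bool) :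
    Dep T {x : I × ℕ → Bool | x t = v} := by
  have h1 : MeasurableSpace.comap (fun x : I × ℕ → Bool => x t) inferInstance ≤ sig T :=
    le_iSup₂_of_le t ht le_rfl
  exact h1 _ ⟨{v}, measurableSet_singleton v, rfl⟩

theorem measure_const (i : I) (v : Bool) (S : Finset ℕ) :
    coinProduct I {x | ∀ k ∈ S, x (i, k) = v} = (2 : ENNReal)⁻¹ ^ S.card := by
  classical
  let s : Finset (I × ℕ) := S.image fun j => (i, j)
  have hs : {x : I × ℕ → Bool | ∀ k ∈ S, x (i, k) = v} = Set.pi s fun _ => {v} := by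
    ext x
    simp [s, Set.mem_pi]
  have hcard : s.card = S.card := by
    rw [Finset.card_image_of_injective]
    intro a b h
    exact congrArg Prod.snd h
  rw [hs, coinProduct, Measure.infinitePi_pi _ fun _ _ => measurableSet_singleton v,
    Finset.prod_const, coin_sing, hcard]

theorem dep_const (i : I) (v : Bool) (S : Finset ℕ) :
    Dep {t : I × ℕ | t.1 = i} {x | ∀ k ∈ S, x (i, k) = v} := by
  have : {x : I × ℕ → Bool | ∀ k ∈ S, x (i, k) = v} =
      ⋂ k : ℕ, ⋂ (_ : k ∈ S), {x | x (i, k) = v} := by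
    ext x
    simp
  rw [this]
  exact Dep.iInter fun k => Dep.iInter fun _ =>
    dep_coord' (t := (i, k)) (show (i, k) ∈ {t : I × ℕ | t.1 = i} from rfl) v

/-- If the random infinite set `b` does not depend on the random real with index `i`, then this
random real is not constant on `b`. -/
theorem measure_const_on {b : ℕ → Set (I × ℕ → Bool)} {T : Set (I × ℕ)}
    (hb : ∀ n, Dep T (b n))
    (hinf : ∀ᵐ x ∂(coinProduct I), ∀ N, ∃ n, N ≤ n ∧ x ∈ b n) (i : I)
    (hi : ∀ t ∈ T, t.1 ≠ i) (v : Bool) :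
    coinProduct I {x | ∀ n, x ∈ b n → x (i, n) = v} = 0 := by
  classical
  have key : ∀ N : ℕ, coinProduct I {x | ∀ n, x ∈ b n → x (i, n) = v} ≤
      2 * (2 : ENNReal)⁻¹ ^ N := by
    intro N
    obtain ⟨M, -, hM⟩ := exists_long hb hinf 0 N (two_pos N)
    let J := Finset.Ico 0 M
    let Q : Finset ℕ → Set (I × ℕ → Bool) := fun S => {x | (J.filter fun k => x ∈ b k) = S}
    let R : Finset ℕ → Set (I × ℕ → Bool) := fun S => {x | ∀ k ∈ S, x (i, k) = v}
    have hQd : ∀ S, Dep T (Q S) := fun S => dep_filter hb J S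
    have hdisj : Disjoint T {t : I × ℕ | t.1 = i} :=
      Set.disjoint_left.2 fun t h1 h2 => hi t h1 h2
    have hcov : {x | ∀ n, x ∈ b n → x (i, n) = v} ⊆ {x | cnt b x 0 M < N} ∪
        ⋃ S ∈ J.powerset.filter (fun S => N ≤ S.card), Q S ∩ R S := by
      intro x hx
      by_cases h : cnt b x 0 M < N
      · exact Or.inl h
      · refine Or.inr (mem_iUnion₂.2 ⟨J.filter fun k => x ∈ b k, ?_, rfl, ?_⟩)
        · exact Finset.mem_filter.2 ⟨Finset.mem_powerset.2 (Finset.filter_subset _ _),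
            not_lt.1 h⟩
        · intro k hk
          exact hx k (Finset.mem_filter.1 hk).2
    have hsum : ∑ S ∈ J.powerset.filter (fun S => N ≤ S.card), coinProduct I (Q S ∩ R S) ≤
        (2 : ENNReal)⁻¹ ^ N := by
      have h1 : ∀ S ∈ J.powerset.filter (fun S => N ≤ S.card),
          coinProduct I (Q S ∩ R S) ≤ coinProduct I (Q S) * (2 : ENNReal)⁻¹ ^ N := by
        intro S hS
        rw [dep_indep hdisj (hQd S) (dep_const i v S)]
        refine mul_le_mul_right ?_ _
        show coinProduct I {x | ∀ k ∈ S, x (i, k) = v} ≤ _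
        rw [measure_const]
        exact pow_le_pow_right_of_le_one' (by simp) (Finset.mem_filter.1 hS).2
      refine (Finset.sum_le_sum h1).trans ?_
      rw [← Finset.sum_mul]
      have h2 : ∑ S ∈ J.powerset.filter (fun S => N ≤ S.card), coinProduct I (Q S) ≤ 1 := by
        rw [← measure_biUnion_finset ?_ fun S _ => (hQd S).meas]
        · exact prob_le_one
        · intro S _ S' _ hne
          refine Set.disjoint_left.2 fun x h3 h4 => hne ?_
          rw [← h3, ← h4]
      calc _ ≤ 1 * (2 : ENNReal)⁻¹ ^ N := mul_le_mul_left h2 _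
        _ = _ := one_mul _
    calc _ ≤ _ := measure_mono hcov
      _ ≤ coinProduct I {x | cnt b x 0 M < N} +
          coinProduct I (⋃ S ∈ J.powerset.filter (fun S => N ≤ S.card), Q S ∩ R S) :=
        measure_union_le _ _
      _ ≤ (2 : ENNReal)⁻¹ ^ N + (2 : ENNReal)⁻¹ ^ N :=
        add_le_add hM ((measure_biUnion_finset_le _ _).trans hsum)
      _ = 2 * (2 : ENNReal)⁻¹ ^ N := (two_mul _).symm
  have h2 := ENNReal.tendsto_pow_atTop_nhds_zero_of_lt_one
      (r := (2 : ENNReal)⁻¹) (ENNReal.inv_lt_one.2 (by norm_num))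
  have h3 : Tendsto (fun N : ℕ => 2 * (2 : ENNReal)⁻¹ ^ N) atTop (𝓝 0) := by
    have := ENNReal.Tendsto.const_mul (a := 2) h2 (Or.inr (by simp))
    simpa using this
  exact le_antisymm (ge_of_tendsto' h3 key) bot_le

/-- The same on a set of positive measure. -/
theorem not_const_on {b : ℕ → Set (I × ℕ → Bool)} {T : Set (I × ℕ)}
    (hb : ∀ n, Dep T (b n)) (i : I) (hi : ∀ t ∈ T, t.1 ≠ i) (v : Bool)
    (Q : Set (I × ℕ → Bool)) (hQ : coinProduct I Q ≠ 0)
    (hinf : ∀ᵐ x ∂(coinProduct I), x ∈ Q → ∀ N, ∃ n, N ≤ n ∧ x ∈ b n)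
    (hc : ∀ᵐ x ∂(coinProduct I), x ∈ Q → ∀ n, x ∈ b n → x (i, n) = v) : False := by
  let E : Set (I × ℕ → Bool) := ⋂ N : ℕ, ⋃ n : ℕ, ⋃ (_ : N ≤ n), b n
  have hE : Dep T E := Dep.iInter fun N => Dep.iUnion fun n => Dep.iUnion fun _ => hb n
  have hE' : ∀ x, x ∈ E ↔ ∀ N, ∃ n, N ≤ n ∧ x ∈ b n := by
    intro x
    simp [E]
  let b' : ℕ → Set (I × ℕ → Bool) := fun n => (b n ∩ E) ∪ Eᶜ
  have hb' : ∀ n, Dep T (b' n) := by
    intro n
    have h1 : Dep T (b n ∩ E) := (hb n).inter hE
    have h2 : Dep T Eᶜ := hE.compl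
    have : b' n = ⋃ j : Bool, (if j then b n ∩ E else Eᶜ) := by
      ext x
      simp only [b', mem_union, mem_iUnion, Bool.exists_bool]
      simp [or_comm]
    rw [this]
    refine Dep.iUnion fun j => ?_
    cases j
    · simpa using h2
    · simpa using h1
  have hinf' : ∀ᵐ x ∂(coinProduct I), ∀ N, ∃ n, N ≤ n ∧ x ∈ b' n := by
    refine ae_of_all _ fun x N => ?_
    by_cases hx : x ∈ E
    · obtain ⟨n, hn, hxn⟩ := (hE' x).1 hx N
      exact ⟨n, hn, Or.inl ⟨hxn, hx⟩⟩
    · exact ⟨N, le_rfl, Or.inr hx⟩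
  have h0 := measure_const_on hb' hinf' i hi v
  refine hQ (measure_eq_zero_iff_ae_notMem.2 ?_)
  filter_upwards [hinf, hc, measure_eq_zero_iff_ae_notMem.1 h0] with x h1 h2 h3 hx
  have hxE : x ∈ E := (hE' x).2 (h1 hx)
  refine h3 fun n hn => h2 hx n ?_
  rcases hn with hn | hn
  · exact hn.1
  · exact absurd hxE hn

end Pool.Agent.Y575.Pol
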