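import Mathlib
import Pool.Agent.Y575.PolMeas
import Pool.Agent.Y575.PolGround

/-!
# Random reals and the polarized relation
-/

set_option autoImplicit false
set_option linter.unusedSectionVars false

namespace Pool.Agent.Y575.Pol

open MeasureTheory Set Filter Topology Cardinal Pool.Agent.TH773.PSet

universe u v

section Gen

variable {P : Type u} [Preorder P]

theorem meets_const (h : Prop) : meets {_r : P | h} = {_r : P | h} := by
  ext p
  constructor
  · intro h'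
    obtain ⟨_, _, _, hs, _⟩ := h' p le_rfl
    exact hs
  · intro h' q _
    exact ⟨q, le_rfl, q, h', le_rfl⟩

theorem isReal_const (g : ℕ → ℕ) (p : P) : p ∈ IsReal (fun n a => {_r : P | g n = a}) := by
  refine ⟨fun n => ?_, fun n a b hab q _ h => ?_⟩
  · refine mem_fex_of (g n) fun q _ => ?_
    rw [meets_const]
    rfl
  · rw [meets_const, meets_const] at h
    exact hab (h.1.symm.trans h.2)

end Gen

section Meas

variable {Ω : Type u} [MeasurableSpace Ω] {μ : Measure Ω} [IsFiniteMeasure μ]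

theorem exists_common {p q : Cond μ} (h : μ (p.1 ∩ q.1) ≠ 0) : ∃ r, r ≤ p ∧ r ≤ q :=
  ⟨restr p q.1 q.2.1 h, restr_le _ _ _ _, by
    rw [le_iff_AE]
    exact restr_mem _ _ _ _⟩

/-- the countable chain condition -/
theorem ccc {ι : Type v} (p : ι → Cond μ) (h : ∀ i j, i ≠ j → ¬ ∃ r, r ≤ p i ∧ r ≤ p j) :
    Countable ι := by
  have h1 : Set.Countable {i : ι | 0 < μ (p i).1} := by
    refine Measure.countable_meas_pos_of_disjoint_iUnion₀ (fun i => (p i).2.1.nullMeasurableSet) ?_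
    intro i j hij
    by_contra hne
    exact h i j hij (exists_common hne)
  have h2 : {i : ι | 0 < μ (p i).1} = Set.univ := by
    ext i
    simpa [pos_iff_ne_zero] using (p i).2.2
  rw [h2] at h1
  exact countable_univ_iff.1 h1

/-- the event that the random function is bounded by `g` -/
def G (X : ℕ → ℕ → Set Ω) (g : ℕ → ℕ) : Set Ω := ⋂ n, ⋃ a, ⋃ (_ : a ≤ g n), X n a

theorem measurable_G {X : ℕ → ℕ → Set Ω} (hX : ∀ n a, MeasurableSet (X n a)) (g : ℕ → ℕ) :
    MeasurableSet (G X g) :=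
  MeasurableSet.iInter fun n => MeasurableSet.iUnion fun a => MeasurableSet.iUnion fun _ => hX n a

theorem bounding {X : ℕ → ℕ → Set Ω} (hX : ∀ n a, MeasurableSet (X n a)) {Q : Set Ω}
    (hQ : MeasurableSet Q) (h : ∀ n, μ (Q \ ⋃ a, X n a) = 0) {ε : ENNReal} (hε : ε ≠ 0) :
    ∃ g, μ (Q \ G X g) < ε := by
  obtain ⟨ε', h1, h2⟩ := ENNReal.exists_pos_sum_of_countable' hε ℕ
  have h3 : ∀ n, ∃ k, μ (Q \ ⋃ a, ⋃ (_ : a ≤ k), X n a) ≤ ε' n := by
    intro n
    have h4 : Tendsto (μ ∘ fun k => Q \ ⋃ a, ⋃ (_ : a ≤ k), X n a) atTop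
        (𝓝 (μ (⋂ k, Q \ ⋃ a, ⋃ (_ : a ≤ k), X n a))) := by
      refine tendsto_measure_iInter_atTop (fun k => ?_) ?_ ⟨0, measure_ne_top _ _⟩
      · exact (hQ.diff (MeasurableSet.iUnion fun a => MeasurableSet.iUnion fun _ =>
          hX n a)).nullMeasurableSet
      · intro k k' hk x hx
        refine ⟨hx.1, fun hx' => hx.2 ?_⟩
        obtain ⟨a, ha, hxa⟩ := mem_iUnion₂.1 hx'
        exact mem_iUnion₂.2 ⟨a, ha.trans hk, hxa⟩
    have h5 : (⋂ k, Q \ ⋃ a, ⋃ (_ : a ≤ k), X n a) ⊆ Q \ ⋃ a, X n a := by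
      intro x hx
      rw [mem_iInter] at hx
      refine ⟨(hx 0).1, fun hx' => ?_⟩
      obtain ⟨a, ha⟩ := mem_iUnion.1 hx'
      exact (hx a).2 (mem_iUnion₂.2 ⟨a, le_rfl, ha⟩)
    rw [measure_mono_null h5 (h n)] at h4
    obtain ⟨k, hk⟩ := (h4.eventually (ge_mem_nhds (h1 n))).exists
    exact ⟨k, hk⟩
  choose g hg using h3
  refine ⟨g, lt_of_le_of_lt ?_ h2⟩
  have h6 : Q \ G X g ⊆ ⋃ n, Q \ ⋃ a, ⋃ (_ : a ≤ g n), X n a := by
    intro x hx
    by_contra hcon
    simp only [mem_iUnion, not_exists] at hcon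
    refine hx.2 (mem_iInter.2 fun n => ?_)
    by_contra h7
    exact hcon n ⟨hx.1, h7⟩
  exact (measure_mono h6).trans ((measure_iUnion_le _).trans (ENNReal.tsum_le_tsum hg))

theorem inter_ne_zero {A B : Set Ω} (h : μ (A \ B) < μ A) : μ (A ∩ B) ≠ 0 := by
  intro h0
  have h1 : μ A ≤ μ (A ∩ B) + μ (A \ B) := by
    refine le_trans (measure_mono ?_) (measure_union_le _ _)
    rw [inter_union_sdiff]
  rw [h0, zero_add] at h1
  exact absurd h1 (not_le.2 h)

theorem real_data {x : ℕ → RName (Cond μ)} {X : ℕ → ℕ → Set Ω}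
    (hX : ∀ n a, MeasurableSet (X n a)) (hx : ∀ n a, meets (x n a) = AE μ (X n a)) {q : Cond μ}
    (hq : q ∈ IsReal x) : (∀ n, q ∈ AE μ (⋃ a, X n a)) ∧
      ∀ n a b, a ≠ b → q ∈ AE μ (X n a ∩ X n b)ᶜ := by
  refine ⟨fun n => ?_, fun n a b hab => ?_⟩
  · have := hq.1 n
    simp only [hx] at this
    rwa [fex_AE (hX n)] at this
  · have := hq.2 n a b hab
    rwa [hx, hx, fand_AE, fnot_AE ((hX n a).inter (hX n b))] at this

theorem dominatingLe {Y : Type v} (E : Y → ℕ → ℕ)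
    (hE : ∀ g : ℕ → ℕ, ∃ y, ∃ N, ∀ n, N ≤ n → g n ≤ E y n) (p : Cond μ) :
    p ∈ DominatingLe (Cond μ) Y := by
  refine mem_fex.2 fun p' _ => ⟨p', le_rfl, fun y n a => {_r | E y n = a},
    fun y => isReal_const _ _, fun x => ?_⟩
  rw [mem_fimp]
  intro q _ hq
  choose X hX hx using fun n => exists_rep (x n)
  obtain ⟨h1, h2⟩ := real_data (fun n a => hX n a) hx hq
  obtain ⟨g, hg⟩ := bounding (fun n a => hX n a) q.2.1 h1 q.2.2
  have hr := inter_ne_zero hg
  have hGm := measurable_G (fun n a => hX n a) g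
  obtain ⟨y, N, hy⟩ := hE g
  refine ⟨restr q _ hGm hr, restr_le _ _ _ _, mem_fex_of y fun r' hr' => ?_⟩
  refine mem_fex_of N fun r'' hr'' n hn a b hab => ?_
  rw [meets_const, hx]
  intro s hs hsab
  obtain ⟨hsa, hsb⟩ := hsab
  have hsb : E y n = b := hsb
  have h3 : s ∈ AE μ (G X g) :=
    down_AE _ _ (restr_mem q _ hGm hr) _ (hs.trans (hr''.trans hr'))
  have h4 : s ≤ q := (hs.trans (hr''.trans hr')).trans (restr_le _ _ _ _)
  have h5 : ∀ c, c ≠ a → s ∈ AE μ (X n c ∩ X n a)ᶜ := fun c hc =>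
    down_AE _ _ (h2 n c a hc) _ h4
  have h6 : ∀ᵐ z ∂μ, ∀ c : ℕ, c ≠ a → z ∈ s.1 → z ∈ (X n c ∩ X n a)ᶜ := by
    rw [ae_all_iff]
    intro c
    by_cases hc : c = a
    · exact ae_of_all _ fun z hc' => absurd hc hc'
    · exact ((mem_AE_iff).1 (h5 c hc)).mono fun z hz _ => hz
  rw [mem_AE_iff] at h3 hsa
  refine s.2.2 (measure_eq_zero_iff_ae_notMem.2 ?_)
  filter_upwards [h3, hsa, h6] with z h7 h8 h9 hz
  obtain ⟨c, hc, hzc⟩ := mem_iUnion₂.1 (mem_iInter.1 (h7 hz) n)
  have hcg := hy n hn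
  exact h9 c (by omega) hz ⟨hzc, h8 hz⟩

theorem not_dominatingLe {Y : Type v}
    (hY : ¬ ∃ E : Y × ℕ → ℕ → ℕ, ∀ g : ℕ → ℕ, ∃ y, ∃ N, ∀ n, N ≤ n → g n ≤ E y n)
    (p : Cond μ) : p ∈ fnot (DominatingLe (Cond μ) Y) := by
  intro q _ hq
  obtain ⟨r, _, E, hE1, hE2⟩ := mem_fex.1 hq q le_rfl
  choose X hX hx using fun y n => exists_rep (E y n)
  have hdata := fun y => real_data (fun n a => hX y n a) (hx y) (hE1 y)
  have hb : ∀ (y : Y) (k : ℕ), ∃ g, μ (r.1 \ G (X y) g) < ((k : ENNReal) + 1)⁻¹ := by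
    intro y k
    refine bounding (fun n a => hX y n a) r.2.1 (hdata y).1 ?_
    exact ENNReal.inv_ne_zero.2 (ENNReal.add_ne_top.2 ⟨ENNReal.natCast_ne_top k,
      ENNReal.one_ne_top⟩)
  choose g hg using hb
  refine hY ⟨fun z => g z.1 z.2, fun h => ?_⟩
  obtain ⟨s, hs, hs'⟩ := mem_fimp.1 (hE2 fun n a => {_r | h n = a}) r le_rfl (isReal_const _ _)
  obtain ⟨t, ht, y, hty⟩ := mem_fex.1 hs' s le_rfl
  obtain ⟨t', ht', N, hN⟩ := mem_fex.1 hty t le_rfl
  have htr : t' ≤ r := ht'.trans (ht.trans hs)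
  obtain ⟨k, hk⟩ : ∃ k : ℕ, ((k : ENNReal) + 1)⁻¹ < μ t'.1 := by
    obtain ⟨k, hk⟩ := ENNReal.exists_inv_nat_lt t'.2.2
    refine ⟨k, lt_of_le_of_lt ?_ hk⟩
    exact ENNReal.inv_le_inv.2 (le_self_add)
  have h1 : μ (t'.1 \ G (X y) (g y k)) < μ t'.1 := by
    refine lt_of_le_of_lt ?_ ((hg y k).trans hk)
    refine measure_mono_ae ?_
    have h2 : t' ∈ AE μ r.1 := htr
    rw [mem_AE_iff] at h2
    filter_upwards [h2] with z hz hz'
    exact ⟨hz hz'.1, hz'.2⟩
  have h2 := inter_ne_zero h1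
  have hGm := measurable_G (fun n a => hX y n a) (g y k)
  refine ⟨(y, k), N, fun n hn => ?_⟩
  by_contra hlt
  push Not at hlt
  have h3 : restr t' _ hGm h2 ∈ AE μ (⋃ b : ℕ, ⋃ (_ : b ≤ g y k n), X y n b) := by
    have := restr_mem t' _ hGm h2
    rw [mem_AE_iff] at this ⊢
    exact this.mono fun z hz hz' => mem_iInter.1 (hz hz') n
  obtain ⟨b, hb⟩ := exists_pos (S := fun b => ⋃ (_ : b ≤ g y k n), X y n b) h3
  have hbg : b ≤ g y k n := by
    by_contra hcon
    simp [hcon] at hb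
  have hb' : μ ((restr t' _ hGm h2).1 ∩ X y n b) ≠ 0 := by
    simpa [hbg] using hb
  refine hN n hn (h n) b (lt_of_le_of_lt hbg hlt) (restr _ _ (hX y n b) hb')
    ((restr_le _ _ _ _).trans (restr_le _ _ _ _)) ⟨?_, ?_⟩
  · rw [meets_const]
    rfl
  · rw [hx]
    exact restr_mem _ _ _ _

theorem aleph0_lt_dominatingNumber : ℵ₀ < dominatingNumber := by
  by_contra hcon
  push Not at hcon
  rw [← dominating_set_iff] at hcon
  obtain ⟨E, hE⟩ := hcon
  obtain ⟨e⟩ : Nonempty ((ℵ₀ : Cardinal.{0}).out ≃ ℕ) := by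
    rw [← Cardinal.eq, mk_out, mk_nat]
  obtain ⟨y, N, h⟩ := hE fun n => ∑ i ∈ Finset.range (n + 1), E (e.symm i) n + 1
  have h1 := h (max N (e y)) (le_max_left _ _)
  have h2 : E y (max N (e y)) ≤
      ∑ i ∈ Finset.range (max N (e y) + 1), E (e.symm i) (max N (e y)) := by
    have := Finset.single_le_sum (f := fun i => E (e.symm i) (max N (e y)))
      (fun _ _ => Nat.zero_le _) (Finset.mem_range.2 (Nat.lt_succ_of_le (le_max_right N (e y))))
    simpa using this
  omega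

theorem dominatingIs (p : Cond μ) : p ∈ DominatingIs (Cond μ) dominatingNumber := by
  refine ⟨?_, fun κ hκ => ?_⟩
  · obtain ⟨E, hE⟩ := (dominating_set_iff dominatingNumber).2 le_rfl
    exact dominatingLe E hE p
  · refine not_dominatingLe ?_ p
    rintro ⟨E, hE⟩
    have h1 : dominatingNumber ≤ #(κ.out × ℕ) := by
      rw [← dominating_set_iff]
      obtain ⟨e⟩ : Nonempty ((#(κ.out × ℕ)).out ≃ κ.out × ℕ) := by
        rw [← Cardinal.eq, mk_out]
      refine ⟨fun z => E (e z), fun g => ?_⟩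
      obtain ⟨y, hy⟩ := hE g
      refine ⟨e.symm y, ?_⟩
      simpa using hy
    have h2 : #(κ.out × ℕ) = κ * ℵ₀ := by
      rw [mk_prod, lift_id, lift_id, mk_out, mk_nat]
    rw [h2] at h1
    have h3 : κ * ℵ₀ < dominatingNumber :=
      lt_of_le_of_lt (mul_le_max_of_aleph0_le_right le_rfl)
        (max_lt hκ aleph0_lt_dominatingNumber)
    exact absurd h1 (not_le.2 h3)

end Meas

/-- In the extension by at least `κ > ω` random reals the relation `(κ, ω) → (κ, ω)` fails. -/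
theorem not_polarized (I K : Type) (hK : ℵ₀ < #K) (hKI : #K ≤ #I) (p : Random I) :
    p ∈ fnot (Polarized (Random I) K) := by
  obtain ⟨e⟩ := hKI
  intro q _ hq
  let c : K → RName (Random I) := fun x n => AE (coinProduct I) {w | w (e x, n) = true}
  have hc : ∀ x n, MeasurableSet {w : I × ℕ → Bool | w (e x, n) = true} := fun x n =>
    (dep_coord (T := Set.univ) (t := (e x, n)) trivial).meas
  obtain ⟨r, _, A, hA⟩ := mem_fex.1 (hq c) q le_rfl
  obtain ⟨r', hr', B, hfull, hinf, hdis⟩ := mem_fex.1 hA r le_rfl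
  obtain ⟨b, hb, hb'⟩ := exists_rep B
  choose T hT hT' using fun n => exists_countable (hb n)
  let U : Set (I × ℕ) := ⋃ n, T n
  have hU : U.Countable := countable_iUnion hT
  have hbU : ∀ n, Dep U (b n) := fun n => (hT' n).mono (subset_iUnion T n)
  let S : Set K := {x | ∃ t ∈ U, t.1 = e x}
  have hS : S.Countable := by
    refine Set.Countable.mono ?_ ((hU.image Prod.fst).preimage e.injective)
    rintro x ⟨t, ht, h⟩
    exact ⟨t, ht, h⟩
  obtain ⟨s, hs, v, hv⟩ : ∃ s ≤ r', ∃ v : Bool, ∀ x, ∀ t ≤ s, t ∈ meets (A x) →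
      ∀ᵐ w ∂(coinProduct I), w ∈ t.1 → ∀ n, w ∈ b n → w (e x, n) = v := by
    obtain ⟨s, hs, h | h⟩ := mem_disj.1 hdis r' le_rfl
    · refine ⟨s, hs, true, fun x t ht hxt => ?_⟩
      have h1 : t ∈ Pool.Agent.TH773.PSet.Sub B (c x) :=
        (mem_fimp_reg (reg_meets _).1 (reg_sub _ _)).1 (h x) t ht hxt
      have h2 : ∀ n, ∀ᵐ w ∂(coinProduct I), w ∈ t.1 → w ∈ b n → w (e x, n) = true := by
        intro n
        have h3 : t ∈ fimp (meets (B n)) (meets (c x n)) := h1 n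
        rw [hb', show meets (c x n) = _ from meets_AE (hc x n), fimp_AE (hb n) (hc x n),
          mem_AE_iff] at h3
        filter_upwards [h3] with w hw hw1 hw2
        rcases hw hw1 with h4 | h4
        · exact absurd hw2 h4
        · exact h4
      filter_upwards [ae_all_iff.2 h2] with w hw hw' n using hw n hw'
    · refine ⟨s, hs, false, fun x t ht hxt => ?_⟩
      have h1 : t ∈ Disj B (c x) :=
        (mem_fimp_reg (reg_meets _).1 (reg_disjoint _ _)).1 (h x) t ht hxt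
      have h2 : ∀ n, ∀ᵐ w ∂(coinProduct I), w ∈ t.1 → w ∈ b n → w (e x, n) = false := by
        intro n
        have h3 : t ∈ fnot (fand (meets (B n)) (meets (c x n))) := h1 n
        rw [hb', show meets (c x n) = _ from meets_AE (hc x n), fand_AE,
          fnot_AE ((hb n).inter (hc x n)), mem_AE_iff] at h3
        filter_upwards [h3] with w hw hw1 hw2
        by_contra h4
        refine hw hw1 ⟨hw2, ?_⟩
        simpa using h4
      filter_upwards [ae_all_iff.2 h2] with w hw hw' n using hw n hw'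
  have hinf' : ∀ t ≤ s, ∀ᵐ w ∂(coinProduct I), w ∈ t.1 → ∀ N, ∃ n, N ≤ n ∧ w ∈ b n := by
    intro t ht
    have h1 : t ∈ Inf B := (reg_inf B).1 _ hinf _ (ht.trans hs)
    have h2 : ∀ N, ∀ᵐ w ∂(coinProduct I), w ∈ t.1 → ∃ n, N ≤ n ∧ w ∈ b n := by
      intro N
      have h3 : t ∈ fex fun n => fex fun _ : N ≤ n => meets (B n) := h1 N
      have h4 : (fun n => fex fun _ : N ≤ n => meets (B n)) =
          fun n => AE (coinProduct I) (⋃ (_ : N ≤ n), b n) := by
        ext1 n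
        simp only [hb']
        exact fex_AE fun _ => hb n
      rw [h4, fex_AE fun n => MeasurableSet.iUnion fun _ => hb n, mem_AE_iff] at h3
      filter_upwards [h3] with w hw hw'
      have := hw hw'
      simpa using this
    filter_upwards [ae_all_iff.2 h2] with w hw hw' N using hw N hw'
  have hAS : ∀ x, x ∉ S → ∀ t ≤ s, t ∉ meets (A x) := by
    intro x hx t ht hxt
    refine not_const_on hbU (e x) (fun u hu h => hx ⟨u, hu, h⟩) v t.1 t.2.2 (hinf' t ht) ?_
    exact hv x t ht hxt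
  obtain ⟨t, ht, R, h1, h2, h3, h4⟩ := mem_fex.1 hfull s hs
  have h5 : ∀ x, ∃ y : S, ∃ u ≤ t, u ∈ meets (R x y) := by
    intro x
    obtain ⟨u, hu, y, hy⟩ := mem_fex.1 (h1 x) t le_rfl
    obtain ⟨u', hu', hy'⟩ := mem_fimp.1 (h4 x y) u hu hy
    have hyS : y ∈ S := by
      by_contra hcon
      exact hAS y hcon u' (hu'.trans (hu.trans ht)) hy'
    exact ⟨⟨y, hyS⟩, u, hu, hy⟩
  choose y u hu hy using h5
  have hcount : Countable K := by
    have hS' : Countable S := hS.to_subtype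
    have h6 : ∀ z : S, {x | y x = z}.Countable := by
      intro z
      have : Countable {x | y x = z} := by
        refine ccc (fun x : {x | y x = z} => u x) ?_
        rintro ⟨x, hx⟩ ⟨x', hx'⟩ hne ⟨w, hw, hw'⟩
        have hx : y x = z := hx
        have hx' : y x' = z := hx'
        have hne' : x ≠ x' := fun h => hne (Subtype.ext h)
        refine h3 x x' hne' z w (hw.trans (hu x)) ⟨?_, ?_⟩
        · rw [← hx]
          exact (reg_meets _).1 _ (hy x) _ hw
        · rw [← hx']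
          exact (reg_meets _).1 _ (hy x') _ hw'
      exact this.to_set
    have h7 : (⋃ z : S, {x | y x = z}) = Set.univ := by
      ext x
      simp
    rw [← countable_univ_iff, ← h7]
    exact countable_iUnion h6
  exact absurd (mk_le_aleph0_iff.2 hcount) (not_le.2 hK)

end Pool.Agent.Y575.Pol
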