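import Mathlib
import Pool.Agent.TH778.SA.Seq

/-!
# A symmetric coherent Aronszajn line

`cg` is a coherent sequence of finite-to-one functions from the countable ordinals to `ℕ`, and
`cv α ξ = 1 / (cg α ξ + 2)`. A node of level `α` is a sequence of rationals in `(-1, 1)` which is
almost equal to `cv α` or almost equal to `- cv α` below `α`. A point of height `α` is a sequence
which is a node of level `α`, has the value `1` or `-1` at `α` and `0` beyond `α`. The set `C` of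
the points is ordered lexicographically.
-/

set_option autoImplicit false

namespace Pool.Agent.Y575.Roth

open Set Cardinal Pool.Agent.Helper330.DPK.Coh
open Pool.Agent.TH778.SA (Sq Agree dl lt_iff agree_dl dl_ne dl_comm dl_eq_of lt_iff_dl agree_iff
  not_countable_W exists_ub exists_gt_of_not_countable)

/-- the values of the coherent sequence -/
noncomputable def cv (α ξ : W) : ℝ := 1 / ((cg α ξ : ℝ) + 2)

theorem cv_pos (α ξ : W) : 0 < cv α ξ := by
  unfold cv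
  positivity

theorem cv_lt (α ξ : W) : cv α ξ < 1 := by
  unfold cv
  rw [div_lt_one (by positivity)]
  have : (0 : ℝ) ≤ cg α ξ := Nat.cast_nonneg _
  linarith

theorem cv_rat (α ξ : W) : ∃ q : ℚ, cv α ξ = q := ⟨1 / ((cg α ξ : ℚ) + 2), by
  unfold cv
  push_cast
  rfl⟩

theorem cv_coh (α β : W) : {ξ | ξ < α ∧ ξ < β ∧ cv α ξ ≠ cv β ξ}.Finite := by
  refine (cg_coh α β).subset ?_
  rintro ξ ⟨h1, h2, h3⟩
  refine ⟨h1, h2, fun h4 => h3 ?_⟩
  unfold cv
  rw [h4]

theorem cv_fin (α : W) (v : ℝ) : {ξ | ξ < α ∧ cv α ξ = v}.Finite := by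
  rcases {ξ | ξ < α ∧ cv α ξ = v}.eq_empty_or_nonempty with h | ⟨ξ0, h0⟩
  · rw [h]
    exact Set.finite_empty
  refine (cg_fin α (cg α ξ0)).subset ?_
  rintro ξ ⟨h1, h2⟩
  refine ⟨h1, ?_⟩
  have h3 : cv α ξ = cv α ξ0 := h2.trans h0.2.symm
  unfold cv at h3
  have h4 : (0 : ℝ) < (cg α ξ : ℝ) + 2 := by positivity
  have h5 : (0 : ℝ) < (cg α ξ0 : ℝ) + 2 := by positivity
  rw [div_eq_div_iff h4.ne' h5.ne'] at h3
  have h6 : (cg α ξ : ℝ) = cg α ξ0 := by linarith
  exact (Nat.cast_injective h6).le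

/-- `x` is a node of level `α` -/
structure Nd (α : W) (x : Sq) : Prop where
  rat : ∀ ξ < α, ∃ q : ℚ, x ξ = q
  abs : ∀ ξ < α, |x ξ| < 1
  fin : {ξ | ξ < α ∧ x ξ ≠ cv α ξ}.Finite ∨ {ξ | ξ < α ∧ x ξ ≠ - cv α ξ}.Finite

theorem Nd.agree {α : W} {x y : Sq} (hx : Nd α x) (h : Agree α x y) : Nd α y := by
  refine ⟨fun ξ hξ => ?_, fun ξ hξ => ?_, ?_⟩
  · rw [← h ξ hξ]
    exact hx.rat ξ hξ
  · rw [← h ξ hξ]
    exact hx.abs ξ hξ
  · refine hx.fin.imp (fun h1 => h1.subset ?_) (fun h1 => h1.subset ?_)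
    · rintro ξ ⟨h2, h3⟩
      exact ⟨h2, by rwa [h ξ h2]⟩
    · rintro ξ ⟨h2, h3⟩
      exact ⟨h2, by rwa [h ξ h2]⟩

theorem Nd.mono {α β : W} {x : Sq} (hx : Nd α x) (h : β ≤ α) : Nd β x := by
  refine ⟨fun ξ hξ => hx.rat ξ (hξ.trans_le h), fun ξ hξ => hx.abs ξ (hξ.trans_le h), ?_⟩
  refine hx.fin.imp (fun h1 => (h1.union (cv_coh α β)).subset ?_)
    (fun h1 => (h1.union (cv_coh α β)).subset ?_)
  · rintro ξ ⟨h2, h3⟩
    by_cases h4 : x ξ = cv α ξ
    · exact Or.inr ⟨h2.trans_le h, h2, fun h5 => h3 (by rw [h4, h5])⟩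
    · exact Or.inl ⟨h2.trans_le h, h4⟩
  · rintro ξ ⟨h2, h3⟩
    by_cases h4 : x ξ = - cv α ξ
    · exact Or.inr ⟨h2.trans_le h, h2, fun h5 => h3 (by rw [h4, h5])⟩
    · exact Or.inl ⟨h2.trans_le h, h4⟩

/-- the opposite sequence -/
def ng (x : Sq) : Sq := toLex fun ξ => - x ξ

theorem ng_apply (x : Sq) (ξ : W) : (ng x) ξ = - x ξ := rfl

theorem ng_ng (x : Sq) : ng (ng x) = x := by
  funext ξ
  show - - x ξ = x ξ
  exact neg_neg _

theorem ng_lt {x y : Sq} (h : x < y) : ng y < ng x := by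
  obtain ⟨ξ, h1, h2⟩ := lt_iff.1 h
  refine lt_iff.2 ⟨ξ, fun η hη => ?_, ?_⟩
  · rw [ng_apply, ng_apply, h1 η hη]
  · rw [ng_apply, ng_apply]
    exact neg_lt_neg h2

theorem Nd.ng {α : W} {x : Sq} (hx : Nd α x) : Nd α (ng x) := by
  refine ⟨fun ξ hξ => ?_, fun ξ hξ => ?_, ?_⟩
  · obtain ⟨q, hq⟩ := hx.rat ξ hξ
    exact ⟨-q, by rw [ng_apply, hq]; push_cast; rfl⟩
  · rw [ng_apply, abs_neg]
    exact hx.abs ξ hξ
  · rcases hx.fin with h | h
    · right
      refine h.subset ?_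
      rintro ξ ⟨h1, h2⟩
      refine ⟨h1, fun h3 => h2 ?_⟩
      rw [ng_apply, h3]
    · left
      refine h.subset ?_
      rintro ξ ⟨h1, h2⟩
      refine ⟨h1, fun h3 => h2 ?_⟩
      rw [ng_apply, h3, neg_neg]

/-- there is no uncountable branch -/
theorem no_branch (b : Sq) (h : ∀ α, Nd α b) : False := by
  classical
  have hrat : ∀ ξ, ∃ q : ℚ, b ξ = q := by
    intro ξ
    obtain ⟨α, hα⟩ := exists_gt ξ
    exact (h α).rat ξ hα
  choose q hq using hrat
  obtain ⟨v, hv⟩ : ∃ v, ¬ {ξ | q ξ = v}.Countable := by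
    by_contra hcon
    push Not at hcon
    apply not_countable_W
    refine (Set.countable_iUnion hcon).mono fun ξ _ => ?_
    exact mem_iUnion.2 ⟨q ξ, rfl⟩
  have hinf : {ξ | q ξ = v}.Infinite := fun h => hv h.countable
  obtain ⟨S, hS, hSc, hSi⟩ : ∃ S ⊆ {ξ | q ξ = v}, S.Countable ∧ S.Infinite := by
    let g := hinf.natEmbedding
    exact ⟨range fun n => (g n).1, by rintro _ ⟨n, rfl⟩; exact (g n).2, countable_range _,
      Set.infinite_range_of_injective fun a b hab => g.injective (Subtype.ext hab)⟩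
  obtain ⟨a, ha⟩ := exists_ub hSc
  have hbv : ∀ ξ ∈ S, b ξ = (v : ℝ) := by
    intro ξ hξ
    rw [hq]
    exact_mod_cast hS hξ
  rcases (h a).fin with hfin | hfin
  · refine hSi ((hfin.union (cv_fin a v)).subset ?_)
    intro ξ hξ
    by_cases h5 : b ξ = cv a ξ
    · exact Or.inr ⟨ha ξ hξ, by rw [← h5, hbv ξ hξ]⟩
    · exact Or.inl ⟨ha ξ hξ, h5⟩
  · refine hSi ((hfin.union (cv_fin a (-v))).subset ?_)
    intro ξ hξ
    by_cases h5 : b ξ = - cv a ξ
    · exact Or.inr ⟨ha ξ hξ, by rw [← hbv ξ hξ, h5, neg_neg]⟩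
    · exact Or.inl ⟨ha ξ hξ, h5⟩

open Classical in
/-- the truncation -/
noncomputable def tr (α : W) (x : Sq) : Sq := toLex fun ξ => if ξ < α then x ξ else 0

theorem tr_lt {α ξ : W} (x : Sq) (h : ξ < α) : (tr α x) ξ = x ξ := by
  show (if ξ < α then x ξ else 0) = x ξ
  rw [if_pos h]

theorem tr_ge {α ξ : W} (x : Sq) (h : α ≤ ξ) : (tr α x) ξ = 0 := by
  show (if ξ < α then x ξ else 0) = 0
  rw [if_neg (not_lt.2 h)]

theorem agree_tr (α : W) (x : Sq) : Agree α x (tr α x) := fun _ hξ => (tr_lt x hξ).symm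

/-- the truncated nodes of level `α` -/
def NS (α : W) : Set Sq := {x | Nd α x ∧ ∀ ξ, α ≤ ξ → x ξ = 0}

theorem tr_mem {α : W} {x : Sq} (hx : Nd α x) : tr α x ∈ NS α :=
  ⟨hx.agree (agree_tr α x), fun _ hξ => tr_ge x hξ⟩

open Classical in
/-- an enumeration of the nodes -/
noncomputable def FF (α : W) (s : ℚ) (f : Iio α →₀ ℚ) : Sq := toLex fun ξ =>
    if h : ξ < α then (f ⟨ξ, h⟩ : ℝ) + s * cv α ξ else 0

theorem mem_FF {α : W} {x : Sq} (s : ℚ) (h0 : ∀ ξ, α ≤ ξ → x ξ = 0)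
    (h1 : ∀ ξ < α, ∃ q : ℚ, x ξ = q) (h2 : {ξ | ξ < α ∧ x ξ ≠ s * cv α ξ}.Finite) :
    x ∈ range (FF α s) := by
  classical
  have h3 : ∀ ξ : Iio α, ∃ q : ℚ, x ξ.1 = q + s * cv α ξ.1 := by
    rintro ⟨ξ, hξ⟩
    obtain ⟨q, hq⟩ := h1 ξ hξ
    obtain ⟨r, hr⟩ := cv_rat α ξ
    refine ⟨q - s * r, ?_⟩
    show x ξ = ((q - s * r : ℚ) : ℝ) + s * cv α ξ
    rw [hq, hr]
    push_cast
    ring
  choose g hg using h3
  have hfin : (Function.support g).Finite := by
    have h4 : ((fun ξ : Iio α => ξ.1) '' Function.support g).Finite := by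
      refine h2.subset ?_
      rintro _ ⟨⟨ξ, hξ⟩, h3, rfl⟩
      refine ⟨hξ, fun h5 => h3 ?_⟩
      have h6 : x ξ = (g ⟨ξ, hξ⟩ : ℝ) + s * cv α ξ := hg ⟨ξ, hξ⟩
      have h8 : x ξ = s * cv α ξ := h5
      have h7 : ((g ⟨ξ, hξ⟩ : ℚ) : ℝ) = 0 := by linarith
      exact_mod_cast h7
    exact Set.Finite.of_finite_image h4 (Subtype.val_injective.injOn)
  refine ⟨Finsupp.ofSupportFinite g hfin, ?_⟩
  funext ξ
  show (if h : ξ < α then (g ⟨ξ, h⟩ : ℝ) + s * cv α ξ else 0) = x ξ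
  by_cases h : ξ < α
  · rw [dif_pos h]
    exact (hg ⟨ξ, h⟩).symm
  · rw [dif_neg h, h0 ξ (not_lt.1 h)]

theorem countable_NS (α : W) : (NS α).Countable := by
  have : Countable (Iio α) := (countable_Iio α).to_subtype
  refine ((Set.countable_range (FF α 1)).union (Set.countable_range (FF α (-1)))).mono ?_
  rintro x ⟨hx, h0⟩
  rcases hx.fin with h | h
  · left
    refine mem_FF 1 h0 hx.rat (h.subset ?_)
    rintro ξ ⟨h1, h2⟩
    refine ⟨h1, fun h3 => h2 ?_⟩
    rw [h3]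
    push_cast
    ring
  · right
    refine mem_FF (-1) h0 hx.rat (h.subset ?_)
    rintro ξ ⟨h1, h2⟩
    refine ⟨h1, fun h3 => h2 ?_⟩
    rw [h3]
    push_cast
    ring

/-! ### points -/

/-- `x` is a point of height `α` -/
structure Pt (x : Sq) (α : W) : Prop where
  nd : Nd α x
  top : |x α| = 1
  zero : ∀ ξ, α < ξ → x ξ = 0

/-- the set of the points -/
def CSet : Set Sq := {x | ∃ α, Pt x α}

/-- the line -/
abbrev C : Type := CSet

theorem Pt.le {x y : Sq} {α β δ : W} (hx : Pt x α) (hy : Pt y β) (h : Agree δ x y)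
    (hδ : δ ≤ α) : δ ≤ β := by
  by_contra hcon
  rw [not_le] at hcon
  have h1 := hx.nd.abs β (hcon.trans_le hδ)
  rw [h β hcon, hy.top] at h1
  exact lt_irrefl _ h1

theorem Pt.unique {x : Sq} {α β : W} (hx : Pt x α) (hy : Pt x β) : α = β :=
  le_antisymm (hx.le hy (Agree.refl _ _) le_rfl) (hy.le hx (Agree.refl _ _) le_rfl)
where
  Agree.refl (δ : W) (x : Sq) : Agree δ x x := fun _ _ => rfl

/-- the height of a point -/
noncomputable def ht (x : C) : W := x.2.choose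

theorem pt (x : C) : Pt x.1 (ht x) := x.2.choose_spec

theorem ht_eq {x : C} {α : W} (h : Pt x.1 α) : ht x = α := (pt x).unique h

theorem abs_le_one (x : C) (ξ : W) : |x.1 ξ| ≤ 1 := by
  rcases lt_trichotomy ξ (ht x) with h | h | h
  · exact ((pt x).nd.abs ξ h).le
  · rw [h]
    exact (pt x).top.le
  · rw [(pt x).zero ξ h]
    simp

theorem dl_le {x y : C} (h : x ≠ y) : dl x.1 y.1 ≤ ht x := by
  have hne : x.1 ≠ y.1 := fun h' => h (Subtype.ext h')
  by_contra hcon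
  rw [not_le] at hcon
  have h1 := agree_dl hne
  have h2 : ht x ≤ ht y := (pt x).le (pt y) (h1.mono hcon.le) le_rfl
  have h3 : ht x = ht y := by
    rcases h2.eq_or_lt with h3 | h3
    · exact h3
    · have h4 := (pt y).nd.abs _ h3
      rw [← h1 _ hcon, (pt x).top] at h4
      exact absurd h4 (lt_irrefl _)
  apply dl_ne hne
  rw [(pt x).zero _ hcon, (pt y).zero _ (h3 ▸ hcon)]

theorem dl_le' {x y : C} (h : x ≠ y) : dl x.1 y.1 ≤ ht y := by
  rw [dl_comm]
  exact dl_le (Ne.symm h)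

theorem countable_ht_eq (α : W) : {x : C | ht x = α}.Countable := by
  refine Set.countable_of_injective_of_countable_image
    (f := fun x : C => ((tr α x.1, x.1 α) : Sq × ℝ)) ?_
    (((countable_NS α).prod ((Set.finite_singleton (-1 : ℝ)).insert 1).countable).mono ?_)
  · intro x hx y hy hxy
    have hx' : ht x = α := hx
    have hy' : ht y = α := hy
    have h1 : tr α x.1 = tr α y.1 := congrArg Prod.fst hxy
    have h2 : x.1 α = y.1 α := congrArg Prod.snd hxy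
    apply Subtype.ext
    funext ξ
    rcases lt_trichotomy ξ α with h | h | h
    · have h3 := congrFun h1 ξ
      rw [tr_lt _ h, tr_lt _ h] at h3
      exact h3
    · rw [h]
      exact h2
    · rw [(pt x).zero ξ (by rw [hx']; exact h), (pt y).zero ξ (by rw [hy']; exact h)]
  · rintro _ ⟨x, hx, rfl⟩
    have hx' : ht x = α := hx
    have h1 := pt x
    rw [hx'] at h1
    refine ⟨tr_mem h1.nd, ?_⟩
    rcases (abs_eq (zero_le_one : (0 : ℝ) ≤ 1)).1 h1.top with h2 | h2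
    · left
      exact h2
    · right
      exact h2

theorem countable_ht_lt (δ : W) : {x : C | ht x < δ}.Countable := by
  refine ((countable_Iio δ).biUnion fun α _ => countable_ht_eq α).mono fun x hx => ?_
  exact mem_iUnion₂.2 ⟨ht x, hx, rfl⟩

/-- the largest point of a cone -/
theorem exists_top {δ : W} {g : Sq} (hg : Nd δ g) :
    ∃ p : C, ht p = δ ∧ Agree δ g p.1 ∧ p.1 δ = 1 := by
  classical
  let y : Sq := toLex fun ξ => if ξ < δ then g ξ else if ξ = δ then 1 else 0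
  have hy : ∀ ξ, y ξ = if ξ < δ then g ξ else if ξ = δ then 1 else 0 := fun ξ => rfl
  have hag : Agree δ g y := fun ξ hξ => by rw [hy, if_pos hξ]
  have hyδ : y δ = 1 := by rw [hy, if_neg (lt_irrefl _), if_pos rfl]
  have hpt : Pt y δ := by
    refine ⟨hg.agree hag, ?_, fun ξ hξ => ?_⟩
    · rw [hyδ]
      simp
    · rw [hy, if_neg (not_lt.2 hξ.le), if_neg hξ.ne']
  exact ⟨⟨y, δ, hpt⟩, ht_eq hpt, hag, hyδ⟩

/-- the canonical node -/
theorem nd_cv (α : W) : Nd α (toLex fun ξ => cv α ξ : Sq) := by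
  refine ⟨fun ξ _ => cv_rat α ξ, fun ξ _ => ?_, Or.inl ?_⟩
  · show |cv α ξ| < 1
    rw [abs_of_pos (cv_pos α ξ)]
    exact cv_lt α ξ
  · have : {ξ | ξ < α ∧ (toLex fun ξ => cv α ξ : Sq) ξ ≠ cv α ξ} = (∅ : Set W) := by
      rw [Set.eq_empty_iff_forall_notMem]
      rintro ξ ⟨_, h⟩
      exact h rfl
    rw [this]
    exact Set.finite_empty

theorem not_countable_C : ¬ (univ : Set C).Countable := by
  intro h
  apply not_countable_W
  refine (h.image ht).mono fun α _ => ?_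
  obtain ⟨p, hp, -, -⟩ := exists_top (nd_cv α)
  exact ⟨p, mem_univ _, hp⟩

/-- the reflection of the line -/
def nC (x : C) : C := ⟨ng x.1, by
  obtain ⟨α, hα⟩ := x.2
  refine ⟨α, hα.nd.ng, ?_, fun ξ hξ => ?_⟩
  · rw [ng_apply, abs_neg]
    exact hα.top
  · rw [ng_apply, hα.zero ξ hξ, neg_zero]⟩

theorem nC_nC (x : C) : nC (nC x) = x := Subtype.ext (ng_ng x.1)

theorem nC_lt {x y : C} (h : x < y) : nC y < nC x := ng_lt h

theorem nC_lt_iff {x y : C} : nC x < nC y ↔ y < x := by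
  constructor
  · intro h
    have := nC_lt h
    rwa [nC_nC, nC_nC] at this
  · exact nC_lt

/-- closure points of functions -/
theorem exists_closed (F : W → W) (a : W) : ∃ δ, a < δ ∧ ∀ α < δ, F α ≤ δ ∧ ∃ β, α < β ∧ β < δ := by
  have h1 : ∀ s : W, ∃ b, s < b ∧ ∀ α ≤ s, F α < b := by
    intro s
    obtain ⟨b, hb⟩ := exists_ub (((countable_Iic s).image F).union (countable_singleton s))
    exact ⟨b, hb s (Or.inr rfl), fun α hα => hb _ (Or.inl ⟨α, hα, rfl⟩)⟩
  choose G hG1 hG2 using h1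
  let s : ℕ → W := fun n => Nat.rec (motive := fun _ => W) (G a) (fun _ r => G r) n
  have hs0 : s 0 = G a := rfl
  have hs1 : ∀ n, s (n + 1) = G (s n) := fun n => rfl
  have hne : {b : W | ∀ n, s n ≤ b}.Nonempty := by
    obtain ⟨b, hb⟩ := exists_ub (countable_range s)
    exact ⟨b, fun n => (hb _ ⟨n, rfl⟩).le⟩
  let δ := (wellFounded_lt (α := W)).min _ hne
  have hδ : ∀ n, s n ≤ δ := (wellFounded_lt (α := W)).min_mem _ hne
  have hδ' : ∀ α < δ, ∃ n, α < s n := by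
    intro α hα
    by_contra hcon
    push Not at hcon
    exact (wellFounded_lt (α := W)).not_lt_min {b : W | ∀ n, s n ≤ b} (x := α) hcon hα
  refine ⟨δ, (hG1 a).trans_le (hδ 0), fun α hα => ?_⟩
  obtain ⟨n, hn⟩ := hδ' α hα
  refine ⟨?_, s n, hn, ?_⟩
  · refine ((hG2 (s n) α hn.le).le).trans ?_
    rw [← hs1]
    exact hδ (n + 1)
  · refine lt_of_lt_of_le (hG1 (s n)) ?_
    rw [← hs1]
    exact hδ (n + 1)

end Pool.Agent.Y575.Roth
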