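import Mathlib
import Pool.Agent.Y575.RothTree

/-!
# Half-open covers of the symmetric coherent Aronszajn line
-/

set_option autoImplicit false

namespace Pool.Agent.Y575.Roth

open Set Cardinal Pool.Agent.Helper330.DPK.Coh
open Pool.Agent.TH778.SA (Sq Agree dl lt_iff agree_dl dl_ne dl_comm dl_eq_of lt_iff_dl agree_iff
  not_countable_W exists_ub exists_gt_of_not_countable)

theorem exists_bot : ∃ a : W, ∀ ξ, a ≤ ξ := by
  refine ⟨(wellFounded_lt (α := W)).min univ univ_nonempty, fun ξ => ?_⟩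
  by_contra h
  exact (wellFounded_lt (α := W)).not_lt_min univ (x := ξ) (mem_univ _) (not_le.1 h)

/-- comparison of two sequences below `β` -/
theorem tri (β : W) (x y : Sq) : Agree β x y ∨ (∃ ξ < β, Agree ξ x y ∧ x ξ < y ξ) ∨
    (∃ ξ < β, Agree ξ x y ∧ y ξ < x ξ) := by
  by_cases h : Agree β x y
  · exact Or.inl h
  right
  have hne : x ≠ y := fun h1 => h (h1 ▸ fun _ _ => rfl)
  rw [agree_iff hne, not_le] at h
  rcases lt_or_gt_of_ne (dl_ne hne) with h1 | h1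
  · exact Or.inl ⟨_, h, agree_dl hne, h1⟩
  · exact Or.inr ⟨_, h, agree_dl hne, h1⟩

section

variable (y : W → C)

/-- uncountably many of the points pass through the node -/
def Big (α : W) (g : Sq) : Prop := ¬ {δ | Agree α g (y δ).1}.Countable

variable {y}

theorem Big.agree {α : W} {g h : Sq} (hg : Big y α g) (hgh : Agree α g h) : Big y α h := by
  intro hc
  refine hg (hc.mono fun δ hδ => ?_)
  exact fun ξ hξ => ((hgh ξ hξ).symm).trans (hδ ξ hξ)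

theorem Big.mono {α β : W} {g : Sq} (hg : Big y α g) (h : β ≤ α) : Big y β g := by
  intro hc
  refine hg (hc.mono fun δ hδ => ?_)
  exact fun ξ hξ => hδ ξ (hξ.trans_le h)

theorem Big.exists_gt {α : W} {g : Sq} (hg : Big y α g) (c : W) : ∃ δ, c < δ ∧ Agree α g (y δ).1 := by
  obtain ⟨a, ha, hc⟩ := exists_gt_of_not_countable hg c
  exact ⟨a, hc, ha⟩

theorem Big.nd (hy : ∀ δ, δ ≤ ht (y δ)) {α : W} {g : Sq} (hg : Big y α g) : Nd α g := by
  obtain ⟨δ, h1, h2⟩ := hg.exists_gt α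
  exact ((pt (y δ)).nd.mono (h1.le.trans (hy δ))).agree fun ξ hξ => (h2 ξ hξ).symm

theorem Big.ext (hy : ∀ δ, δ ≤ ht (y δ)) {α β : W} {g : Sq} (hg : Big y α g) (h : α ≤ β) :
    ∃ g', Agree α g g' ∧ Big y β g' := by
  by_contra hcon
  push Not at hcon
  apply hg
  have h1 : (⋃ n ∈ {n | n ∈ NS β ∧ Agree α g n}, {δ | Agree β n (y δ).1}).Countable := by
    refine ((countable_NS β).mono fun n hn => hn.1).biUnion fun n hn => ?_
    by_contra h2
    exact hcon n hn.2 h2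
  refine ((countable_Iic β).union h1).mono fun δ hδ => ?_
  by_cases h2 : δ ≤ β
  · exact Or.inl h2
  right
  have h3 : Nd β (y δ).1 := (pt (y δ)).nd.mono ((not_le.1 h2).le.trans (hy δ))
  refine mem_iUnion₂.2 ⟨tr β (y δ).1, ⟨tr_mem h3, fun ξ hξ => ?_⟩, fun ξ hξ => ?_⟩
  · rw [tr_lt _ (hξ.trans_le h)]
    exact hδ ξ hξ
  · exact tr_lt _ hξ

/-- at the level `β` there is no rightmost big node above `g` -/
def Spl (y : W → C) (α : W) (g : Sq) (β : W) : Prop :=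
  α ≤ β ∧ ∀ r, Big y β r → Agree α g r →
    ∃ h, Big y β h ∧ Agree α g h ∧ ∃ ξ < β, Agree ξ r h ∧ r ξ < h ξ

theorem exists_spl (hy : ∀ δ, δ ≤ ht (y δ)) {α : W} {g : Sq} (hg : Big y α g) :
    ∃ β, Spl y α g β := by
  by_contra hcon
  unfold Spl at hcon
  push Not at hcon
  -- the rightmost nodes
  have h1 : ∀ β, ∃ r, α ≤ β → Big y β r ∧ Agree α g r ∧
      ∀ h, Big y β h → Agree α g h → ∀ ξ < β, Agree ξ r h → h ξ ≤ r ξ := by
    intro β
    by_cases hβ : α ≤ β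
    · obtain ⟨r, h2, h3, h4⟩ := hcon β hβ
      exact ⟨r, fun _ => ⟨h2, h3, h4⟩⟩
    · exact ⟨g, fun h => absurd h hβ⟩
  choose r hr using h1
  have h2 : ∀ β γ, α ≤ β → β ≤ γ → Agree β (r β) (r γ) := by
    intro β γ hβ hγ
    obtain ⟨ha1, ha2, ha3⟩ := hr β hβ
    obtain ⟨hb1, hb2, hb3⟩ := hr γ (hβ.trans hγ)
    rcases tri β (r β) (r γ) with h3 | ⟨ξ, h3, h4, h5⟩ | ⟨ξ, h3, h4, h5⟩
    · exact h3
    · exact absurd (ha3 (r γ) (hb1.mono hγ) hb2 ξ h3 h4) (not_le.2 h5)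
    · obtain ⟨h, h6, h7⟩ := ha1.ext hy hγ
      exfalso
      have h8 : Agree ξ (r γ) h := fun η hη => ((h4 η hη).symm).trans (h6 η (hη.trans h3))
      have h9 := hb3 h h7 (fun η hη => (ha2 η hη).trans (h6 η (hη.trans_le hβ))) ξ
        (h3.trans_le hγ) h8
      rw [← h6 ξ h3] at h9
      exact absurd h9 (not_le.2 h5)
  have h3 : ∀ ξ : W, ∃ s, ξ < s ∧ α ≤ s := by
    intro ξ
    obtain ⟨s, hs⟩ := NoMaxOrder.exists_gt (max ξ α)
    exact ⟨s, (le_max_left _ _).trans_lt hs, ((le_max_right _ _).trans_lt hs).le⟩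
  choose s hs1 hs2 using h3
  let b : Sq := toLex fun ξ => r (s ξ) ξ
  have hb : ∀ ξ, b ξ = r (s ξ) ξ := fun ξ => rfl
  have h4 : ∀ β, α ≤ β → Nd β b := by
    intro β hβ
    refine ((hr β hβ).1.nd hy).agree fun ξ hξ => ?_
    rw [hb]
    rcases le_total (s ξ) β with h5 | h5
    · exact (h2 _ _ (hs2 ξ) h5 ξ (hs1 ξ)).symm
    · exact h2 _ _ hβ h5 ξ hξ
  refine no_branch b fun β => ?_
  rcases le_total α β with h5 | h5
  · exact h4 β h5
  · exact (h4 α le_rfl).mono h5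

theorem exists_spl_bound (hy : ∀ δ, δ ≤ ht (y δ)) (α : W) :
    ∃ b, ∀ g, Big y α g → ∃ β < b, Spl y α g β := by
  have h1 : ∀ g, ∃ β, Big y α g → Spl y α g β := by
    intro g
    by_cases hg : Big y α g
    · obtain ⟨β, hβ⟩ := exists_spl hy hg
      exact ⟨β, fun _ => hβ⟩
    · exact ⟨α, fun h => absurd h hg⟩
  choose F hF using h1
  obtain ⟨b, hb⟩ := exists_ub ((countable_NS α).image F)
  refine ⟨b, fun g hg => ⟨F (tr α g), hb _ ⟨_, tr_mem (hg.nd hy), rfl⟩, ?_⟩⟩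
  obtain ⟨h2, h3⟩ := hF (tr α g) (hg.agree (agree_tr α g))
  refine ⟨h2, fun r hr1 hr2 => ?_⟩
  obtain ⟨h, h4, h5, h6⟩ := h3 r hr1 fun ξ hξ => (agree_tr α g ξ hξ).symm.trans (hr2 ξ hξ)
  exact ⟨h, h4, fun ξ hξ => (agree_tr α g ξ hξ).trans (h5 ξ hξ), h6⟩

end

/-- countably many of the half-open intervals cover the line -/
theorem lind (f : C → C) (hf : ∀ x, (∃ z, x < z) → x < f x) :
    ∃ δ : W, ∀ x : C, ∃ d : C, ht d < δ ∧ (x = d ∨ (d < x ∧ x < f d)) := by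
  by_contra hcon
  push Not at hcon
  choose y hy' using hcon
  have hy : ∀ δ, δ ≤ ht (y δ) := by
    intro δ
    by_contra h
    exact (hy' δ (y δ) (not_le.1 h)).1 rfl
  choose F hF using exists_spl_bound (y := y) hy
  obtain ⟨a0, ha0⟩ := exists_bot
  obtain ⟨δ, hδ, hδ'⟩ := exists_closed F a0
  have hbig0 : Big y a0 (y a0).1 := by
    intro hc
    refine not_countable_W (hc.mono fun δ _ => ?_)
    exact fun ξ hξ => absurd hξ (not_lt.2 (ha0 ξ))
  obtain ⟨g, -, hg⟩ := hbig0.ext hy hδ.le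
  obtain ⟨p, hp1, hp2, hp3⟩ := exists_top (hg.nd hy)
  -- the siblings to the right
  have key : ∀ α < δ, ∃ h β ξ, Big y β h ∧ β < δ ∧ α ≤ ξ ∧ ξ < β ∧ Agree ξ g h ∧ g ξ < h ξ := by
    intro α hα
    obtain ⟨β, hβ, h1, h2⟩ := hF α g (hg.mono hα.le)
    have hβδ : β < δ := hβ.trans_le (hδ' α hα).1
    obtain ⟨h, h3, h4, ξ, h5, h6, h7⟩ := h2 g (hg.mono hβδ.le) fun _ _ => rfl
    refine ⟨h, β, ξ, h3, hβδ, ?_, h5, h6, h7⟩
    by_contra h8
    exact h7.ne (h4 ξ (not_le.1 h8))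
  have right : ∀ (h : Sq) (β ξ : W), Big y β h → β < δ → ξ < β → Agree ξ g h → g ξ < h ξ →
      ∀ c, ∃ γ, c < γ ∧ Agree ξ p.1 (y γ).1 ∧ p.1 ξ < (y γ).1 ξ := by
    intro h β ξ h1 h2 h3 h4 h5 c
    obtain ⟨γ, h6, h7⟩ := h1.exists_gt c
    refine ⟨γ, h6, fun η hη => ?_, ?_⟩
    · rw [← hp2 η (hη.trans (h3.trans h2)), h4 η hη]
      exact h7 η (hη.trans h3)
    · rw [← hp2 ξ (h3.trans h2), ← h7 ξ h3]
      exact h5
  have hpf : p < f p := by
    apply hf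
    obtain ⟨h, β, ξ, h1, h2, h3, h4, h5, h6⟩ := key a0 hδ
    obtain ⟨γ, -, h7, h8⟩ := right h β ξ h1 h2 h4 h5 h6 a0
    exact ⟨y γ, lt_iff.2 ⟨ξ, h7, h8⟩⟩
  have hne : p ≠ f p := hpf.ne
  have hne' : p.1 ≠ (f p).1 := fun h => hne (Subtype.ext h)
  have h1 : p.1 (dl p.1 (f p).1) < (f p).1 (dl p.1 (f p).1) := (lt_iff_dl hne').1 hpf
  have h2 : dl p.1 (f p).1 < δ := by
    refine lt_of_le_of_ne ((dl_le hne).trans hp1.le) fun h => ?_
    rw [h, hp3] at h1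
    exact absurd ((le_abs_self _).trans (abs_le_one (f p) δ)) (not_le.2 h1)
  obtain ⟨-, α', h3, h4⟩ := hδ' _ h2
  obtain ⟨h, β, ξ, h5, h6, h7, h8, h9, h10⟩ := key α' h4
  obtain ⟨γ, h11, h12, h13⟩ := right h β ξ h5 h6 h8 h9 h10 δ
  have h14 := (hy' γ p (by rw [hp1]; exact h11)).2 (lt_iff.2 ⟨ξ, h12, h13⟩)
  refine absurd h14 (not_le.2 (lt_iff.2 ⟨dl p.1 (f p).1, fun η hη => ?_, ?_⟩))
  · rw [← agree_dl hne' η hη]
    exact (h12 η (hη.trans (h3.trans_le h7))).symm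
  · rw [← h12 _ (h3.trans_le h7)]
    exact h1

/-- the cells of a suitable level lie inside members of the covers -/
theorem cells (f : ℕ → C → C) (hf : ∀ n x, (∃ z, x < z) → x < f n x) :
    ∃ δ : W, ∀ x : C, δ ≤ ht x → ∀ n, ∃ d : C, ∀ z : C, Agree δ x.1 z.1 → d < z ∧ z < f n d := by
  choose D hD using fun n => lind (f n) (hf n)
  have h1 : ∀ α : W, ∃ b, ∀ d : C, ht d = α → ∀ n, ht (f n d) < b := by
    intro α
    obtain ⟨b, hb⟩ := exists_ub (S := ⋃ n, (fun d : C => ht (f n d)) '' {d : C | ht d = α})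
      (Set.countable_iUnion fun n => (countable_ht_eq α).image _)
    exact ⟨b, fun d hd n => hb _ (mem_iUnion.2 ⟨n, d, hd, rfl⟩)⟩
  choose F hF using h1
  obtain ⟨a, ha⟩ := exists_ub (countable_range D)
  obtain ⟨δ, hδ, hδ'⟩ := exists_closed F a
  refine ⟨δ, fun x hx n => ?_⟩
  obtain ⟨d, hd, hxd⟩ := hD n x
  have hdδ : ht d < δ := hd.trans ((ha _ ⟨n, rfl⟩).trans hδ)
  have hxd' : d < x ∧ x < f n d := by
    rcases hxd with rfl | h
    · exact absurd hx (not_le.2 hdδ)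
    · exact h
  have hfd : ht (f n d) < δ := (hF _ d rfl n).trans_le (hδ' _ hdδ).1
  refine ⟨d, fun z hz => ⟨?_, ?_⟩⟩
  · have hne : d ≠ x := hxd'.1.ne
    have hlt : d.1 < x.1 := hxd'.1
    have h2 : dl d.1 x.1 < δ := (dl_le hne).trans_lt hdδ
    refine lt_iff.2 ⟨dl d.1 x.1, fun η hη => ?_, ?_⟩
    · rw [← hz η (hη.trans h2)]
      exact agree_dl hlt.ne η hη
    · rw [← hz _ h2]
      exact (lt_iff_dl hlt.ne).1 hlt
  · have hne : x ≠ f n d := hxd'.2.ne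
    have hlt : x.1 < (f n d).1 := hxd'.2
    have h2 : dl x.1 (f n d).1 < δ := (dl_le' hne).trans_lt hfd
    refine lt_iff.2 ⟨dl x.1 (f n d).1, fun η hη => ?_, ?_⟩
    · rw [← hz η (hη.trans h2)]
      exact agree_dl hlt.ne η hη
    · rw [← hz _ h2]
      exact (lt_iff_dl hlt.ne).1 hlt

/-! ### the topology -/

/-- the half-open interval topology of a linear order -/
@[reducible] def rs (L : Type*) [LinearOrder L] : TopologicalSpace L where
  IsOpen U := ∀ x ∈ U, ∀ z, x < z → ∃ y, x < y ∧ Ico x y ⊆ U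
  isOpen_univ := fun _ _ z hz => ⟨z, hz, subset_univ _⟩
  isOpen_inter := fun U V hU hV x hx z hz => by
    obtain ⟨y, hy, hyU⟩ := hU x hx.1 z hz
    obtain ⟨y', hy', hyV⟩ := hV x hx.2 z hz
    exact ⟨min y y', lt_min hy hy', fun w hw => ⟨hyU ⟨hw.1, hw.2.trans_le (min_le_left _ _)⟩,
      hyV ⟨hw.1, hw.2.trans_le (min_le_right _ _)⟩⟩⟩
  isOpen_sUnion := fun S hS x hx z hz => by
    obtain ⟨U, hU, hxU⟩ := hx
    obtain ⟨y, hy, hyU⟩ := hS U hU x hxU z hz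
    exact ⟨y, hy, hyU.trans (subset_sUnion_of_mem hU)⟩

/-- the line with the half-open interval topology -/
def X : Type := C

noncomputable instance : LinearOrder X := inferInstanceAs (LinearOrder C)

noncomputable instance : TopologicalSpace X := rs X

theorem isOpen_iff {U : Set X} : IsOpen U ↔ ∀ x ∈ U, ∀ z, x < z → ∃ y, x < y ∧ Ico x y ⊆ U :=
  Iff.rfl

theorem isOpen_Ici' (a : X) : IsOpen (Ici a) := by
  rw [isOpen_iff]
  intro x hx z hz
  exact ⟨z, hz, fun w hw => hx.trans hw.1⟩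

theorem isOpen_Iio' (a : X) : IsOpen (Iio a) := by
  rw [isOpen_iff]
  intro x hx z hz
  exact ⟨a, hx, fun w hw => hw.2⟩

theorem isOpen_Ico' (a b : X) : IsOpen (Ico a b) := (isOpen_Ici' a).inter (isOpen_Iio' b)

theorem isClosed_Ico' (a b : X) : IsClosed (Ico a b) := by
  rw [← isOpen_compl_iff]
  have : (Ico a b)ᶜ = Iio a ∪ Ici b := by
    ext x
    simp only [mem_compl_iff, mem_Ico, mem_union, mem_Iio, mem_Ici, not_and_or, not_le, not_lt]
  rw [this]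
  exact (isOpen_Iio' a).union (isOpen_Ici' b)

theorem isClosed_Ici' (a : X) : IsClosed (Ici a) := by
  rw [← isOpen_compl_iff, compl_Ici]
  exact isOpen_Iio' a

instance : T2Space X := by
  refine ⟨fun x y hxy => ?_⟩
  rcases lt_or_gt_of_ne hxy with h | h
  · exact ⟨Iio y, Ici y, isOpen_Iio' y, isOpen_Ici' y, h, self_mem_Ici,
      Set.disjoint_left.2 fun z hz hz' => absurd (mem_Iio.1 hz) (not_lt.2 (mem_Ici.1 hz'))⟩
  · exact ⟨Ici x, Iio x, isOpen_Ici' x, isOpen_Iio' x, self_mem_Ici, h,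
      Set.disjoint_left.2 fun z hz hz' => absurd (mem_Iio.1 hz') (not_lt.2 (mem_Ici.1 hz))⟩

instance : RegularSpace X := by
  refine RegularSpace.of_exists_mem_nhds_isClosed_subset fun x s hs => ?_
  obtain ⟨U, hUs, hU, hxU⟩ := mem_nhds_iff.1 hs
  by_cases h : ∃ z, x < z
  · obtain ⟨z, hz⟩ := h
    obtain ⟨y, hy, hyU⟩ := isOpen_iff.1 hU x hxU z hz
    exact ⟨Ico x y, (isOpen_Ico' x y).mem_nhds ⟨le_rfl, hy⟩, isClosed_Ico' x y, hyU.trans hUs⟩
  · push Not at h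
    refine ⟨Ici x, (isOpen_Ici' x).mem_nhds self_mem_Ici, isClosed_Ici' x, fun z hz => hUs ?_⟩
    have : z = x := le_antisymm (h z) hz
    rw [this]
    exact hxU

instance : T3Space X := inferInstance

end Pool.Agent.Y575.Roth
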